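import Pool.Agent.H41.CP.GDefs

set_option autoImplicit false

/-!
CPG-CORE: the badness obstruction has a core — all bad permutations agree with a given bad one on
all but at most one element of an `r`-set.
-/

namespace Pool.Agent.H726.CPG

open Pool.Agent.H41.CPG

theorem invF_invF {r : ℕ} (F : Fin r → PP r) : invF (invF F) = F := by
  funext i
  simp [invF]

/-- `g` maps the rows of a block into its columns. -/
theorem maps {r : ℕ} {F : Fin r → PP r} {g : PP r} {S T : Finset (Fin (2 * r))}
    (h : RB F g S T) {x : Fin (2 * r)} (hx : x ∈ S) : g x ∈ T := by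
  rw [← h.2.2 x hx]
  exact Finset.mem_insert_self _ _

theorem gcore (hbb : S_GBB) (hrr : S_GRR) (hrc : S_GRC) : S_GCORE := by
  classical
  intro r hr F f hf
  rcases hbb r hr F f hf with ⟨S, T, hST⟩ | ⟨S0, T0, hST0⟩
  · -- `f` has a block of the first type
    refine ⟨S, hST.1, ?_⟩
    intro g hg
    rcases hbb r hr F g hg with ⟨S', T', hST'⟩ | ⟨S', T', hST'⟩
    · -- (i)
      obtain ⟨_, hcard, hag⟩ := hrr r hr F f g S T S' T' hST hST'
      have hsub : (S.filter fun x => g x ≠ f x) ⊆ S \ S' := by
        intro x hx
        rw [Finset.mem_filter] at hx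
        rw [Finset.mem_sdiff]
        refine ⟨hx.1, fun hx' => hx.2 ?_⟩
        exact (hag x (Finset.mem_inter.2 ⟨hx.1, hx'⟩)).symm
      have h1 := Finset.card_le_card hsub
      have h2 := Finset.card_sdiff_add_card_inter S S'
      have h3 := hST.1
      omega
    · -- (ii)
      obtain ⟨_, hTT, hag⟩ := hrc r hr F f g S T S' T' hST hST'
      have hcT : T.card = r + 1 := hST.2.1
      have hcT' : T'.card = r := hST'.1
      have hle : ((S.filter fun x => g x ≠ f x).image f).card ≤ (T \ T').card := by
        refine Finset.card_le_card ?_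
        intro t ht
        rw [Finset.mem_image] at ht
        obtain ⟨x, hx, rfl⟩ := ht
        rw [Finset.mem_filter] at hx
        rw [Finset.mem_sdiff]
        exact ⟨maps hST hx.1, fun h => hx.2 (hag x hx.1 h)⟩
      rw [Finset.card_image_of_injective _ f.injective] at hle
      have h2 := Finset.card_sdiff_add_card_inter T T'
      have h3 : T ∩ T' = T' := Finset.inter_eq_right.2 hTT
      rw [h3] at h2
      omega
  · -- `f` has a block of the second type
    have hc0 : T0.card = r := hST0.1
    refine ⟨T0.image fun t => f⁻¹ t, ?_, ?_⟩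
    · rw [Finset.card_image_of_injective _ (f⁻¹ : PP r).injective]
      exact hc0
    intro g hg
    -- it is enough to count values
    have key : ∀ D : Finset (Fin (2 * r)), D.card ≤ 1 →
        (∀ t ∈ T0, t ∉ D → g (f⁻¹ t) = f (f⁻¹ t)) →
        ((T0.image fun t => f⁻¹ t).filter fun x => g x ≠ f x).card ≤ 1 := by
      intro D hD hD'
      refine le_trans ?_ hD
      rw [← Finset.card_image_of_injective D (f⁻¹ : PP r).injective]
      refine Finset.card_le_card ?_
      intro x hx
      rw [Finset.mem_filter, Finset.mem_image] at hx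
      obtain ⟨⟨t, ht, rfl⟩, hne⟩ := hx
      rw [Finset.mem_image]
      refine ⟨t, ?_, rfl⟩
      by_contra hn
      exact hne (hD' t ht hn)
    rcases hbb r hr F g hg with ⟨S', T', hST'⟩ | ⟨S', T', hST'⟩
    · -- (iv)
      obtain ⟨hSS, hTT, hag⟩ := hrc r hr F g f S' T' S0 T0 hST' hST0
      have hcT' : T'.card = r + 1 := hST'.2.1
      have hcS' : S'.card = r := hST'.1
      refine key (T' \ S'.image g) ?_ ?_
      · have h1 : S'.image g ⊆ T' := by
          intro t ht
          rw [Finset.mem_image] at ht
          obtain ⟨x, hx, rfl⟩ := ht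
          exact maps hST' hx
        have h2 := Finset.card_sdiff_add_card_inter T' (S'.image g)
        rw [Finset.inter_eq_right.2 h1, Finset.card_image_of_injective _ g.injective] at h2
        omega
      · intro t ht htn
        have ht' : t ∈ S'.image g := by
          by_contra hn
          exact htn (Finset.mem_sdiff.2 ⟨hTT ht, hn⟩)
        rw [Finset.mem_image] at ht'
        obtain ⟨x, hx, rfl⟩ := ht'
        have hfx : f x = g x := hag x hx ht
        have hx' : f⁻¹ (g x) = x := by
          rw [← hfx]
          exact Equiv.symm_apply_apply f x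
        rw [hx', hfx]
    · -- (iii)
      obtain ⟨_, hcard, hag⟩ := hrr r hr (invF F) f⁻¹ g⁻¹ T0 S0 T' S' hST0 hST'
      refine key (T0 \ T') ?_ ?_
      · have h2 := Finset.card_sdiff_add_card_inter T0 T'
        omega
      · intro t ht htn
        have ht' : t ∈ T' := by
          by_contra hn
          exact htn (Finset.mem_sdiff.2 ⟨ht, hn⟩)
        have h1 : f⁻¹ t = g⁻¹ t := hag t (Finset.mem_inter.2 ⟨ht, ht'⟩)
        have h2 : f (f⁻¹ t) = t := Equiv.apply_symm_apply f t
        have h3 : g (g⁻¹ t) = t := Equiv.apply_symm_apply g t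
        rw [h2, h1, h3]

end Pool.Agent.H726.CPG
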